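import Pool.Agent.Q79.HW.StmN

/-!
Project HW (helper79): jobs HW-PAIR (S_HOLD, S_PAIR) and HW-TF (S_TF).
-/

set_option autoImplicit false

open MeasureTheory Filter Topology Set
open scoped ENNReal NNReal Real
open Pool.Agent.Q79.HW

namespace Pool.Agent.Q211.HW

theorem hold : S_HOLD := by
  intro p hp w hw h0 ht E hE
  have hp0 : 0 < p := by linarith
  have hp1 : 0 < p - 1 := by linarith
  have hpq : p.HolderConjugate (p / (p - 1)) := Real.HolderConjugate.conjExponent hp
  have hσ : Measurable (sg p w) := hw.pow_const _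
  set f : ℝ → ℝ≥0∞ := fun x => w x ^ (1 / p) with hf
  set g : ℝ → ℝ≥0∞ := fun x => sg p w x ^ ((p - 1) / p) with hg
  have hfm : Measurable f := hw.pow_const _
  have hgm : Measurable g := hσ.pow_const _
  have key := ENNReal.lintegral_mul_le_Lp_mul_Lq (volume.restrict E) hpq hfm.aemeasurable
    hgm.aemeasurable
  have e1 : ∫⁻ a in E, (f * g) a = volume E := by
    have h1 : ∀ᵐ x ∂(volume.restrict E), (f * g) x = 1 := by
      filter_upwards [ae_restrict_of_ae h0, ae_restrict_of_ae ht] with x hx0 hxt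
      change w x ^ (1 / p) * (w x ^ (-(1 / (p - 1)))) ^ ((p - 1) / p) = 1
      rw [← ENNReal.rpow_mul, ← ENNReal.rpow_add _ _ hx0 hxt]
      have : 1 / p + -(1 / (p - 1)) * ((p - 1) / p) = 0 := by
        field_simp
        ring
      rw [this, ENNReal.rpow_zero]
    rw [lintegral_congr_ae h1, lintegral_one, Measure.restrict_apply_univ]
  have e2 : ∫⁻ a in E, f a ^ p = ms w E := by
    unfold ms
    refine lintegral_congr fun x => ?_
    change (w x ^ (1 / p)) ^ p = w x
    rw [← ENNReal.rpow_mul, one_div, inv_mul_cancel₀ hp0.ne', ENNReal.rpow_one]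
  have e3 : ∫⁻ a in E, g a ^ (p / (p - 1)) = ms (sg p w) E := by
    unfold ms
    refine lintegral_congr fun x => ?_
    change (sg p w x ^ ((p - 1) / p)) ^ (p / (p - 1)) = sg p w x
    rw [← ENNReal.rpow_mul]
    have : (p - 1) / p * (p / (p - 1)) = 1 := by
      field_simp
    rw [this, ENNReal.rpow_one]
  rw [e1, e2, e3] at key
  calc volume E ^ p ≤ (ms w E ^ (1 / p) * ms (sg p w) E ^ (1 / (p / (p - 1)))) ^ p :=
        ENNReal.rpow_le_rpow key hp0.le
    _ = _ := by
        rw [ENNReal.mul_rpow_of_nonneg _ _ hp0.le, ← ENNReal.rpow_mul, ← ENNReal.rpow_mul]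
        have a1 : 1 / p * p = 1 := by field_simp
        have a2 : 1 / (p / (p - 1)) * p = p - 1 := by field_simp
        rw [a1, a2, ENNReal.rpow_one]

theorem pair : S_PAIR := by
  intro p hp w hw h0 ht A a h hh h1 h2
  have hp0 : 0 < p := by linarith
  set I := Ioo a (a + h) with hI
  set J := Ioo (a + h) (a + 2 * h) with hJ
  have hH := hold p hp w hw h0 ht J measurableSet_Ioo
  have hvol : volume J = ENNReal.ofReal h := by
    rw [hJ, Real.volume_Ioo]
    congr 1
    ring
  rw [hvol] at hH
  set H : ℝ≥0∞ := ENNReal.ofReal h ^ p with hHdef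
  have hH0 : H ≠ 0 := by
    rw [hHdef]
    exact (ENNReal.rpow_pos (ENNReal.ofReal_pos.2 hh) ENNReal.ofReal_ne_top).ne'
  have hHt : H ≠ ∞ := ENNReal.rpow_ne_top_of_nonneg hp0.le ENNReal.ofReal_ne_top
  have h3 : (ms w I * ms (sg p w) I ^ (p - 1)) * H ≤ (A ^ 2 * H) * H := by
    calc (ms w I * ms (sg p w) I ^ (p - 1)) * H ≤
        (ms w I * ms (sg p w) I ^ (p - 1)) * (ms w J * ms (sg p w) J ^ (p - 1)) := by gcongr
      _ = (ms w J * ms (sg p w) I ^ (p - 1)) * (ms w I * ms (sg p w) J ^ (p - 1)) := by ring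
      _ ≤ (A * H) * (A * H) := mul_le_mul' h1 h2
      _ = (A ^ 2 * H) * H := by ring
  exact (ENNReal.mul_le_mul_iff_left hH0 hHt).1 h3

/-- `t ≤ σ` implies `t^(p-1) u ≤ 1` -/
theorem pow_mul_le {p : ℝ} (hp : 1 < p) {u t : ℝ≥0∞} (hu : u ≠ ∞) (ht : t ≤ u ^ (-(1 / (p - 1)))) :
    t ^ (p - 1) * u ≤ 1 := by
  have hp1 : 0 < p - 1 := by linarith
  by_cases h0 : u = 0
  · rw [h0, mul_zero]
    exact zero_le
  · calc t ^ (p - 1) * u ≤ (u ^ (-(1 / (p - 1)))) ^ (p - 1) * u := by
          gcongr
      _ = 1 := by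
          rw [← ENNReal.rpow_mul]
          have : -(1 / (p - 1)) * (p - 1) = -1 := by field_simp
          rw [this, ENNReal.rpow_neg_one, ENNReal.inv_mul_cancel h0 hu]

theorem tf : S_TF := by
  classical
  intro p hp u hu hut E hE s hs hsE
  have hp0 : 0 < p := by linarith
  have hσ : Measurable (sg p u) := hu.pow_const _
  let t : ℕ → ℝ → ℝ≥0∞ := fun n => (E ∩ Icc (-(n : ℝ)) n).indicator fun x => min (sg p u x) n
  have htm : ∀ n, Measurable (t n) := fun n =>
    (hσ.min measurable_const).indicator (hE.inter measurableSet_Icc)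
  have hmono : Monotone t := by
    intro m n hmn x
    have hmn' : (m : ℝ) ≤ n := by exact_mod_cast hmn
    change (E ∩ Icc (-(m : ℝ)) m).indicator _ x ≤ (E ∩ Icc (-(n : ℝ)) n).indicator _ x
    by_cases hx : x ∈ E ∩ Icc (-(m : ℝ)) m
    · have hx' : x ∈ E ∩ Icc (-(n : ℝ)) n := ⟨hx.1, by linarith [hx.2.1], by linarith [hx.2.2]⟩
      rw [indicator_of_mem hx, indicator_of_mem hx']
      exact min_le_min le_rfl (by exact_mod_cast hmn)
    · rw [indicator_of_notMem hx]
      exact zero_le
  have hsup : ∀ x, ⨆ n, t n x = E.indicator (sg p u) x := by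
    intro x
    by_cases hx : x ∈ E
    · rw [indicator_of_mem hx]
      apply le_antisymm
      · refine iSup_le fun n => ?_
        refine (indicator_le_self' (fun _ _ => zero_le) x).trans ?_
        exact min_le_left _ _
      · refine le_of_forall_lt fun c hc => ?_
        obtain ⟨m, hm⟩ := exists_nat_ge |x|
        obtain ⟨k, hk⟩ := ENNReal.exists_nat_gt (ne_top_of_lt hc)
        have hx' : x ∈ E ∩ Icc (-((m + k : ℕ) : ℝ)) ((m + k : ℕ) : ℝ) := by
          have h1 := abs_le.1 hm
          have h2 : (0 : ℝ) ≤ k := Nat.cast_nonneg _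
          push_cast
          exact ⟨hx, by linarith [h1.1], by linarith [h1.2]⟩
        refine lt_of_lt_of_le ?_ (le_iSup (fun n => t n x) (m + k))
        change c < (E ∩ Icc (-((m + k : ℕ) : ℝ)) ((m + k : ℕ) : ℝ)).indicator _ x
        rw [indicator_of_mem hx']
        refine lt_min hc (hk.trans_le ?_)
        exact_mod_cast Nat.le_add_left k m
    · rw [indicator_of_notMem hx]
      refine le_antisymm (iSup_le fun n => ?_) zero_le
      change (E ∩ Icc (-(n : ℝ)) n).indicator _ x ≤ 0
      rw [indicator_of_notMem fun h => hx h.1]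
  have hlim : ⨆ n, ∫⁻ x, t n x = ms (sg p u) E := by
    rw [← lintegral_iSup htm hmono]
    simp_rw [hsup]
    rw [lintegral_indicator hE]
    rfl
  rw [← hlim, lt_iSup_iff] at hsE
  obtain ⟨n, hn⟩ := hsE
  set S : ℝ≥0∞ := ∫⁻ x, t n x with hS
  have htn : ∀ x, t n x ≤ (Icc (-(n : ℝ)) n).indicator (fun _ => (n : ℝ≥0∞)) x := by
    intro x
    change (E ∩ Icc (-(n : ℝ)) n).indicator _ x ≤ _
    by_cases hx : x ∈ E ∩ Icc (-(n : ℝ)) n
    · rw [indicator_of_mem hx, indicator_of_mem hx.2]
      exact min_le_right _ _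
    · rw [indicator_of_notMem hx]
      exact zero_le
  have htn' : ∀ x, t n x ≠ ∞ := by
    intro x
    refine ne_top_of_le_ne_top ?_ (htn x)
    by_cases hx : x ∈ Icc (-(n : ℝ)) n
    · rw [indicator_of_mem hx]
      exact ENNReal.natCast_ne_top n
    · rw [indicator_of_notMem hx]
      exact ENNReal.zero_ne_top
  have hSt : S ≠ ∞ := by
    refine ne_top_of_le_ne_top ?_ (lintegral_mono htn)
    rw [lintegral_indicator measurableSet_Icc, setLIntegral_const, Real.volume_Icc]
    exact ENNReal.mul_ne_top (ENNReal.natCast_ne_top n) ENNReal.ofReal_ne_top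
  have hS0 : S ≠ 0 := (lt_trans (by exact_mod_cast hs) hn).ne'
  have hSr : 0 < S.toReal := ENNReal.toReal_pos hS0 hSt
  have hgm : Measurable fun x => (t n x).toReal / S.toReal := (htm n).ennreal_toReal.div_const _
  have hgi : Integrable fun x => (t n x).toReal :=
    integrable_toReal_of_lintegral_ne_top (htm n).aemeasurable hSt
  refine ⟨fun x => (t n x).toReal / S.toReal, hgm, hgi.div_const _, fun x => by positivity, ?_, ?_, ?_, ?_,
    ?_⟩
  · intro x hx
    have : t n x = 0 := indicator_of_notMem (fun h => hx h.1) _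
    change (t n x).toReal / S.toReal = 0
    rw [this, ENNReal.toReal_zero, zero_div]
  · refine ⟨n / S.toReal, fun x => ?_⟩
    refine div_le_div_of_nonneg_right ?_ hSr.le
    refine ENNReal.toReal_le_of_le_ofReal (Nat.cast_nonneg _) ?_
    rw [ENNReal.ofReal_natCast]
    exact (htn x).trans (indicator_le_self' (fun _ _ => zero_le) x)
  · refine ⟨n, fun x hx => ?_⟩
    have : t n x = 0 := by
      refine indicator_of_notMem (fun h => ?_) _
      exact absurd (abs_le.2 h.2) (not_le.2 hx)
    change (t n x).toReal / S.toReal = 0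
    rw [this, ENNReal.toReal_zero, zero_div]
  · rw [integral_div, integral_toReal (htm n).aemeasurable (Eventually.of_forall fun x =>
      lt_top_iff_ne_top.2 (htn' x)), div_self hSr.ne']
  · have h1 : ∀ x, ENNReal.ofReal ((t n x).toReal / S.toReal) = t n x * S⁻¹ := by
      intro x
      rw [ENNReal.ofReal_div_of_pos hSr, ENNReal.ofReal_toReal (htn' x), ENNReal.ofReal_toReal hSt,
        div_eq_mul_inv]
    have h2 : ∀ x, ENNReal.ofReal ((t n x).toReal / S.toReal) ^ p * u x ≤ S⁻¹ ^ p * t n x := by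
      intro x
      rw [h1, ENNReal.mul_rpow_of_nonneg _ _ hp0.le]
      have h3 : t n x ^ p * u x ≤ t n x := by
        have h4 : t n x ≤ sg p u x := by
          refine (indicator_le_self' (fun _ _ => zero_le) x).trans ?_
          exact min_le_left _ _
        have h5 := pow_mul_le hp (hut x) h4
        by_cases h0 : t n x = 0
        · rw [h0, ENNReal.zero_rpow_of_pos hp0, zero_mul]
        · calc t n x ^ p * u x = t n x * (t n x ^ (p - 1) * u x) := by
                rw [← mul_assoc]
                congr 1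
                nth_rewrite 2 [← ENNReal.rpow_one (t n x)]
                rw [← ENNReal.rpow_add _ _ h0 (htn' x)]
                congr 1
                ring
            _ ≤ t n x * 1 := by gcongr
            _ = t n x := mul_one _
      calc t n x ^ p * S⁻¹ ^ p * u x = S⁻¹ ^ p * (t n x ^ p * u x) := by ring
        _ ≤ _ := by gcongr
    calc ∫⁻ x, ENNReal.ofReal ((t n x).toReal / S.toReal) ^ p * u x ≤ ∫⁻ x, S⁻¹ ^ p * t n x :=
          lintegral_mono h2
      _ = S⁻¹ ^ p * S := lintegral_const_mul _ (htm n)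
      _ = S ^ (1 - p) := by
          rw [ENNReal.inv_rpow, ← ENNReal.rpow_neg]
          nth_rewrite 2 [← ENNReal.rpow_one S]
          rw [← ENNReal.rpow_add _ _ hS0 hSt]
          congr 1
          ring
      _ ≤ (s : ℝ≥0∞) ^ (1 - p) := by
          rw [show 1 - p = -(p - 1) by ring, ENNReal.rpow_neg, ENNReal.rpow_neg, ENNReal.inv_le_inv]
          exact ENNReal.rpow_le_rpow hn.le (by linarith)

end Pool.Agent.Q211.HW
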