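import Pool.Agent.Q79.HW.StmN

/-!
Project HW (helper79): job HW-POS (S_POS).
-/

set_option autoImplicit false

open MeasureTheory Filter Topology Set
open scoped ENNReal NNReal Real
open Pool.Agent.Q79.HW

namespace Pool.Agent.Q211.HW

/-- the two-block function -/
noncomputable def blk (E₁ E₂ : Set ℝ) (y : ℝ) : ℝ :=
  E₁.indicator (fun _ => ((volume E₁).toReal)⁻¹) y - E₂.indicator (fun _ => ((volume E₂).toReal)⁻¹) y

theorem blk_meas {E₁ E₂ : Set ℝ} (h1 : MeasurableSet E₁) (h2 : MeasurableSet E₂) :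
    Measurable (blk E₁ E₂) :=
  (measurable_const.indicator h1).sub (measurable_const.indicator h2)

theorem blk_int {E₁ E₂ : Set ℝ} (h1 : MeasurableSet E₁) (h2 : MeasurableSet E₂)
    (f1 : volume E₁ ≠ ∞) (f2 : volume E₂ ≠ ∞) : Integrable (blk E₁ E₂) := by
  refine Integrable.sub ?_ ?_
  · exact (integrable_indicator_iff h1).2 (integrableOn_const f1)
  · exact (integrable_indicator_iff h2).2 (integrableOn_const f2)

theorem blk_zero {E₁ E₂ : Set ℝ} (h1 : MeasurableSet E₁) (h2 : MeasurableSet E₂)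
    (f1 : volume E₁ ≠ ∞) (f2 : volume E₂ ≠ ∞) (p1 : volume E₁ ≠ 0) (p2 : volume E₂ ≠ 0) :
    ∫ x, blk E₁ E₂ x = 0 := by
  unfold blk
  rw [integral_sub]
  · rw [integral_indicator_const _ h1, integral_indicator_const _ h2]
    have q1 : 0 < (volume E₁).toReal := ENNReal.toReal_pos p1 f1
    have q2 : 0 < (volume E₂).toReal := ENNReal.toReal_pos p2 f2
    simp only [Measure.real, smul_eq_mul]
    rw [mul_inv_cancel₀ q1.ne', mul_inv_cancel₀ q2.ne', sub_self]
  · exact (integrable_indicator_iff h1).2 (integrableOn_const f1)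
  · exact (integrable_indicator_iff h2).2 (integrableOn_const f2)

/-- the value at a point of definite sign is nonzero -/
theorem blk_pv {E₁ E₂ : Set ℝ} (h1 : MeasurableSet E₁) (h2 : MeasurableSet E₂)
    (f1 : volume E₁ ≠ ∞) (f2 : volume E₂ ≠ ∞) (p1 : volume E₁ ≠ 0) (p2 : volume E₂ ≠ 0)
    (m x r : ℝ) (hr : 0 < r) (l1 : ∀ y ∈ E₁, y < m) (l2 : ∀ y ∈ E₂, m < y)
    (hx : (∀ y ∈ E₁ ∪ E₂, r ≤ x - y) ∧ r ≤ x - m ∨ (∀ y ∈ E₁ ∪ E₂, r ≤ y - x) ∧ r ≤ m - x) :
    ∫ y, blk E₁ E₂ y / (x - y) ≠ 0 := by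
  have q1 : 0 < (volume E₁).toReal := ENNReal.toReal_pos p1 f1
  have q2 : 0 < (volume E₂).toReal := ENNReal.toReal_pos p2 f2
  have hxm : x - m ≠ 0 := by
    rcases hx with h | h
    · have := h.2
      intro h0
      linarith
    · have := h.2
      intro h0
      linarith
  -- values
  have v1 : ∀ y ∈ E₁, blk E₁ E₂ y = ((volume E₁).toReal)⁻¹ := by
    intro y hy
    have : y ∉ E₂ := fun h => absurd (l1 y hy) (not_lt.2 (l2 y h).le)
    unfold blk
    rw [indicator_of_mem hy, indicator_of_notMem this, sub_zero]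
  have v2 : ∀ y ∈ E₂, blk E₁ E₂ y = -((volume E₂).toReal)⁻¹ := by
    intro y hy
    have : y ∉ E₁ := fun h => absurd (l1 y h) (not_lt.2 (l2 y hy).le)
    unfold blk
    rw [indicator_of_mem hy, indicator_of_notMem this, zero_sub]
  have v3 : ∀ y, y ∉ E₁ → y ∉ E₂ → blk E₁ E₂ y = 0 := by
    intro y hy1 hy2
    unfold blk
    rw [indicator_of_notMem hy1, indicator_of_notMem hy2, sub_zero]
  have hd : ∀ y ∈ E₁ ∪ E₂, r ≤ |x - y| ∧ 0 < (x - y) * (x - m) := by
    intro y hy
    rcases hx with h | h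
    · have a := h.1 y hy
      have b := h.2
      refine ⟨a.trans (le_abs_self _), mul_pos (by linarith) (by linarith)⟩
    · have a := h.1 y hy
      have b := h.2
      refine ⟨?_, mul_pos_of_neg_of_neg (by linarith) (by linarith)⟩
      rw [abs_sub_comm]
      exact a.trans (le_abs_self _)
  have hint : Integrable (blk E₁ E₂) := blk_int h1 h2 f1 f2
  have hk : Integrable (fun y => blk E₁ E₂ y / (x - y)) := by
    refine Integrable.mono' (hint.norm.div_const r) ?_ ?_
    · exact ((blk_meas h1 h2).div (measurable_const.sub measurable_id)).aestronglyMeasurable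
    · refine Eventually.of_forall fun y => ?_
      by_cases hy : y ∈ E₁ ∪ E₂
      · rw [norm_div, Real.norm_eq_abs (x - y)]
        exact div_le_div_of_nonneg_left (norm_nonneg _) hr (hd y hy).1
      · have : blk E₁ E₂ y = 0 := v3 y (fun h => hy (Or.inl h)) (fun h => hy (Or.inr h))
        rw [this]
        simp
  set h : ℝ → ℝ := fun y => blk E₁ E₂ y * (x - m)⁻¹ - blk E₁ E₂ y / (x - y) with hh
  have hI : Integrable h := (hint.mul_const _).sub hk
  have hval : ∀ y ∈ E₁ ∪ E₂, h y = blk E₁ E₂ y * (m - y) / ((x - y) * (x - m)) := by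
    intro y hy
    have a := (hd y hy).2
    have b : x - y ≠ 0 := fun h0 => by rw [h0, zero_mul] at a; exact lt_irrefl _ a
    simp only [hh]
    field_simp
    ring
  have hnn : ∀ y, 0 ≤ h y := by
    intro y
    by_cases hy : y ∈ E₁ ∪ E₂
    · rw [hval y hy]
      refine div_nonneg ?_ (hd y hy).2.le
      rcases hy with hy | hy
      · rw [v1 y hy]
        exact mul_nonneg (inv_nonneg.2 q1.le) (by linarith [l1 y hy])
      · rw [v2 y hy]
        exact mul_nonneg_of_nonpos_of_nonpos (neg_nonpos.2 (inv_nonneg.2 q2.le))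
          (by linarith [l2 y hy])
    · have : blk E₁ E₂ y = 0 := v3 y (fun h => hy (Or.inl h)) (fun h => hy (Or.inr h))
      simp only [hh, this]
      simp
  have hpos : 0 < ∫ y, h y := by
    rw [integral_pos_iff_support_of_nonneg hnn hI]
    refine lt_of_lt_of_le (pos_iff_ne_zero.2 p1) (measure_mono fun y hy => ?_)
    have hy' : y ∈ E₁ ∪ E₂ := Or.inl hy
    rw [Function.mem_support, hval y hy', v1 y hy]
    have := l1 y hy
    exact (div_pos (mul_pos (inv_pos.2 q1) (by linarith)) (hd y hy').2).ne'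
  intro h0
  have : ∫ y, h y = 0 := by
    simp only [hh]
    rw [integral_sub (hint.mul_const _) hk, h0, integral_mul_const, blk_zero h1 h2 f1 f2 p1 p2]
    simp
  exact hpos.ne' this

theorem pos : S_POS := by
  intro p u C hS
  have hp0 : 0 < p := by linarith [hS.hp]
  by_contra hcon
  set Z : Set ℝ := {x | u x = 0} with hZ
  set F : Set ℝ := {x | u x ≠ 0} with hF
  have hZm : MeasurableSet Z := hS.meas (measurableSet_singleton 0)
  have hFm : MeasurableSet F := hZm.compl
  have hZ0 : volume Z ≠ 0 := by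
    intro h
    apply hcon
    rw [ae_iff]
    simpa [hZ] using h
  have hF0 : volume F ≠ 0 := by
    intro h
    apply hS.nonzero
    rw [ae_iff]
    exact h
  obtain ⟨x₀, hx₀, hx₀'⟩ := exists_mem_forall_mem_nhdsWithin_pos_measure hZ0
  obtain ⟨y₀, hy₀, hy₀'⟩ := exists_mem_forall_mem_nhdsWithin_pos_measure hF0
  have hne : x₀ ≠ y₀ := fun h => hy₀ (h ▸ hx₀)
  have hr0 : 0 < |x₀ - y₀| := abs_pos.2 (sub_ne_zero.2 hne)
  set r : ℝ := |x₀ - y₀| / 4 with hr
  have hrp : 0 < r := by positivity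
  set A : Set ℝ := Z ∩ Ioo (x₀ - r) (x₀ + r) with hA
  have hAm : MeasurableSet A := hZm.inter measurableSet_Ioo
  have hAn : A ∈ 𝓝[Z] x₀ :=
    inter_mem self_mem_nhdsWithin (mem_nhdsWithin_of_mem_nhds (Ioo_mem_nhds (by linarith) (by linarith)))
  have hA0 : volume (A \ {x₀}) ≠ 0 := by
    rw [measure_diff_null (measure_singleton x₀)]
    exact (hx₀' A hAn).ne'
  obtain ⟨x₁, hx₁, hx₁'⟩ := exists_mem_forall_mem_nhdsWithin_pos_measure hA0
  have hne1 : x₁ ≠ x₀ := hx₁.2
  have hmid : ∃ m, m ∈ Ioo (x₀ - r) (x₀ + r) ∧ volume (A ∩ Iio m) ≠ 0 ∧ volume (A ∩ Ioi m) ≠ 0 := by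
    have hb := hx₁.1.2
    refine ⟨(x₀ + x₁) / 2, ⟨by linarith [hb.1], by linarith [hb.2]⟩, ?_⟩
    have s1 : ∀ U ∈ 𝓝 x₀, volume (A ∩ U) ≠ 0 := fun U hU =>
      (hx₀' _ (inter_mem hAn (mem_nhdsWithin_of_mem_nhds hU))).ne'
    have s2 : ∀ U ∈ 𝓝 x₁, volume (A ∩ U) ≠ 0 := fun U hU => by
      have h1 := hx₁' ((A \ {x₀}) ∩ U) (inter_mem self_mem_nhdsWithin (mem_nhdsWithin_of_mem_nhds hU))
      exact (lt_of_lt_of_le h1 (measure_mono (inter_subset_inter_left _ sdiff_subset))).ne'
    rcases lt_or_gt_of_ne hne1 with h | h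
    · exact ⟨s2 _ (Iio_mem_nhds (by linarith)), s1 _ (Ioi_mem_nhds (by linarith))⟩
    · exact ⟨s1 _ (Iio_mem_nhds (by linarith)), s2 _ (Ioi_mem_nhds (by linarith))⟩
  obtain ⟨m, hm, p1, p2⟩ := hmid
  set E₁ := A ∩ Iio m with hE1
  set E₂ := A ∩ Ioi m with hE2
  have m1 : MeasurableSet E₁ := hAm.inter measurableSet_Iio
  have m2 : MeasurableSet E₂ := hAm.inter measurableSet_Ioi
  have hAf : volume A ≠ ∞ := by
    refine ne_top_of_le_ne_top ?_ (measure_mono inter_subset_right)
    rw [Real.volume_Ioo]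
    exact ENNReal.ofReal_ne_top
  have f1 : volume E₁ ≠ ∞ := ne_top_of_le_ne_top hAf (measure_mono inter_subset_left)
  have f2 : volume E₂ ≠ ∞ := ne_top_of_le_ne_top hAf (measure_mono inter_subset_left)
  set J : Set ℝ := Ioo (y₀ - r) (y₀ + r) with hJ
  have hsub : ∀ y ∈ E₁ ∪ E₂, y ∈ A := by
    rintro y (h | h)
    · exact h.1
    · exact h.1
  have hout : ∀ y, y ∉ A → blk E₁ E₂ y = 0 := by
    intro y hy
    unfold blk
    rw [indicator_of_notMem (fun h => hy h.1), indicator_of_notMem (fun h => hy h.1), sub_zero]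
  -- positions
  have hpos : ∀ x ∈ J, (∀ y ∈ Ioo (x₀ - r) (x₀ + r), r ≤ x - y) ∨
      (∀ y ∈ Ioo (x₀ - r) (x₀ + r), r ≤ y - x) := by
    intro x hx
    have hx1 := hx.1
    have hx2 := hx.2
    rcases lt_or_gt_of_ne hne with h | h
    · left
      intro y hy
      have : |x₀ - y₀| = y₀ - x₀ := by rw [abs_sub_comm]; exact abs_of_pos (by linarith)
      rw [this] at hr
      linarith [hy.2]
    · right
      intro y hy
      have : |x₀ - y₀| = x₀ - y₀ := abs_of_pos (by linarith)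
      rw [this] at hr
      linarith [hy.1]
  have hJ0 : ∀ x ∈ J, blk E₁ E₂ x = 0 := by
    intro x hx
    refine hout x fun hxA => ?_
    rcases hpos x hx with h | h
    · have := h x hxA.2
      linarith
    · have := h x hxA.2
      linarith
  have key := hS.adm (blk E₁ E₂) (blk_meas m1 m2) (blk_int m1 m2 f1 f2)
    (blk_zero m1 m2 f1 f2 p1 p2) J isOpen_Ioo hJ0
  have hz : ∫⁻ x, ENNReal.ofReal |blk E₁ E₂ x| ^ p * u x = 0 := by
    rw [← lintegral_zero (α := ℝ) (μ := volume)]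
    refine lintegral_congr fun x => ?_
    by_cases hx : x ∈ A
    · have : u x = 0 := hx.1
      rw [this, mul_zero]
    · rw [hout x hx, abs_zero, ENNReal.ofReal_zero, ENNReal.zero_rpow_of_pos hp0, zero_mul]
  rw [hz, mul_zero, nonpos_iff_eq_zero, lintegral_eq_zero_iff'] at key
  · have h1 : ∀ᵐ x ∂(volume.restrict J), u x = 0 := by
      filter_upwards [key, ae_restrict_mem measurableSet_Ioo] with x hx hxJ
      have h2 : ∫ y, blk E₁ E₂ y / (x - y) ≠ 0 := by
        refine blk_pv m1 m2 f1 f2 p1 p2 m x r hrp (fun y hy => hy.2) (fun y hy => hy.2) ?_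
        rcases hpos x hxJ with h | h
        · exact Or.inl ⟨fun y hy => h y (hsub y hy).2, h m hm⟩
        · exact Or.inr ⟨fun y hy => h y (hsub y hy).2, h m hm⟩
      have h3 : ENNReal.ofReal |∫ y, blk E₁ E₂ y / (x - y)| ^ p ≠ 0 := by
        refine (ENNReal.rpow_pos ?_ ENNReal.ofReal_ne_top).ne'
        exact ENNReal.ofReal_pos.2 (abs_pos.2 h2)
      exact (mul_eq_zero.1 hx).resolve_left h3
    have h4 : volume (F ∩ J) = 0 := by
      have := (ae_iff (p := fun x => u x = 0) (μ := volume.restrict J)).1 h1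
      rwa [Measure.restrict_apply hFm] at this
    have h5 := hy₀' (F ∩ J) (inter_mem self_mem_nhdsWithin
      (mem_nhdsWithin_of_mem_nhds (Ioo_mem_nhds (by linarith) (by linarith))))
    exact h5.ne' h4
  · have hmeas : StronglyMeasurable (fun q : ℝ × ℝ => blk E₁ E₂ q.2 / (q.1 - q.2)) :=
      (((blk_meas m1 m2).comp measurable_snd).div (measurable_fst.sub measurable_snd)).stronglyMeasurable
    have h2 : Measurable (fun x => ∫ y, blk E₁ E₂ y / (x - y)) :=
      hmeas.integral_prod_right'.measurable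
    have h3 : Measurable (fun x => |∫ y, blk E₁ E₂ y / (x - y)|) := h2.abs
    exact ((h3.ennreal_ofReal.pow_const p).mul hS.meas).aemeasurable

end Pool.Agent.Q211.HW
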